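import Pool.Agent.Lib.Rbc.Limit

set_option autoImplicit false

open Rbc Filter

/-- The `(1 : b)` rainbow-connectivity game on `s` copies of `K_n`.  Breaker wins iff `b` is at
least the threshold bias (for `n ≥ 3`), and if `s(n) / log n → ∞` then the threshold bias is
`(1 + o(1)) s n / log n`. -/
theorem Pool.Agent.Results.MP_d4dfa8_co.ThresholdBias.result :
    (∀ n s b : ℕ, 3 ≤ n → 1 ≤ s → 1 ≤ b →
      (BreakerWinsGame n s b ↔ thresholdBias n s ≤ b) ∧
      (BreakerWinsGame n s b ↔ ¬ MakerWinsGame n s b)) ∧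
    ∀ s : ℕ → ℕ, Tendsto (fun n : ℕ => (s n : ℝ) / Real.log n) atTop atTop →
      Tendsto (fun n : ℕ => (thresholdBias n (s n) : ℝ) * Real.log n / (s n * n)) atTop
        (nhds 1) :=
  ⟨fun _ _ b hn hs hb => ⟨threshold_spec hn hs b hb, breakerWins_iff _ _ _ _⟩,
    fun s hs => threshold_limit s hs⟩
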